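import Pool.Agent.Helper68.FZ.ShT

/-!
# The rank and the `3`-torsion of the Tate-Shafarevich group together
-/

set_option autoImplicit false
set_option linter.unusedSectionVars false

open scoped Classical

namespace Pool.Agent.Helper68.FZ

open NumberField IsDedekindDomain WeierstrassCurve
open Pool.Agent.Y692.QS (Ei w nr toC)
open Pool.Agent.Y715.T.Gi Pool.Agent.Y715.T.Nr Pool.Agent.Y715.T.Df Pool.Agent.Y715.T.Ell
open Pool.Agent.Y703.CT
open Pool.Agent.Y155.CT
open Pool.Agent.XL6 (SelH kum_pt quot_map)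

variable {i₀ : QB} {hi : i₀ ^ 2 + i₀ + 1 = 0} {a : GK i₀ → ZMod 3}

/-- the Selmer characters of the points -/
def KumH (hi : i₀ ^ 2 + i₀ + 1 = 0) (a : GK i₀ → ZMod 3) : Set (GK i₀ → ZMod 3) :=
  {h | h ∈ SelH hi a ∧ Cb hi a (fun σ => tt QB (h σ))}

lemma kum_pt' (ha : ∀ σ τ, a (σ * τ) = a σ + a τ) (hc : IsLocallyConstant a) {R : Pt QB}
    (hR : Pool.Agent.Y155.CT.dd hi R ∈ AG hi a) :
    ∃ h ∈ KumH hi a, ∀ σ, ah hi a σ R - R = tt QB (h σ) := by
  obtain ⟨h, h1, h2⟩ := kum_pt ha hc hR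
  exact ⟨h, ⟨h1, R, fun σ => (h2 σ).symm⟩, h2⟩

/-- the bound for the rank by the Kummer characters -/
theorem rank_kum (ha : ∀ σ τ, a (σ * τ) = a σ + a τ) (hc : IsLocallyConstant a)
    (hne : ∃ σ, a σ ≠ 0) (hfin : (KumH hi a).Finite) :
    ∃ m : ℕ, 3 ^ Module.finrank ℤ (AG hi a) ≤ m * m ∧ m * 3 ≤ (KumH hi a).ncard := by
  have hfg := AG_fg (hi := hi) ha hc
  -- a choice of the square roots and of the characters
  have hch : ∀ P : AG hi a, ∃ (R : Pt QB) (h : GK i₀ → ZMod 3),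
      Pool.Agent.Y155.CT.dd hi R = P.1 ∧ h ∈ KumH hi a ∧ ∀ σ, ah hi a σ R - R = tt QB (h σ) := by
    intro P
    obtain ⟨R, hR⟩ := dd_surj hi P.1
    obtain ⟨h, h1, h2⟩ := kum_pt' ha hc (R := R) (by rw [hR]; exact P.2)
    exact ⟨R, h, hR, h1, h2⟩
  choose R h hR hS hh using hch
  -- the equivalence relation
  let s : Setoid (AG hi a) :=
    { r := fun P P' => ∃ c : ZMod 3, ∀ σ, h P σ = h P' σ + c * a σ
      iseqv :=
        { refl := fun P => ⟨0, fun σ => by ring⟩
          symm := fun {P P'} ⟨c, hc'⟩ => ⟨-c, fun σ => by rw [hc' σ]; ring⟩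
          trans := fun {P P' P''} ⟨c, hc'⟩ ⟨c', hc''⟩ =>
            ⟨c + c', fun σ => by rw [hc' σ, hc'' σ]; ring⟩ } }
  let Q := Quotient s
  -- the characters of a class
  have hmem : ∀ (P : AG hi a) (c : ZMod 3), (fun σ => h P σ - c * a σ) ∈ KumH hi a := by
    intro P c
    obtain ⟨h', h1, h2⟩ := kum_pt' ha hc (R := R P + c.val • T3 hi) (by
      rw [map_add, map_nsmul, dd_T3, hR, nsmul_tt, mul_one, ZMod.natCast_zmod_val]
      exact add_mem P.2 (tt_mem c))
    have h3 : h' = fun σ => h P σ - c * a σ := by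
      funext σ
      apply tt_inj (L := QB)
      have h4 := ah_nT3 hi a σ c
      rw [← h2, tt_sub, ← hh]
      have h5 : ah hi a σ (R P + c.val • T3 hi) - (R P + c.val • T3 hi) =
          (ah hi a σ (R P) - R P) + (ah hi a σ (c.val • T3 hi) - c.val • T3 hi) := by
        rw [map_add]
        abel
      rw [h5, h4]
      abel
    rw [← h3]
    exact h1
  have hinj : Function.Injective (fun x : Q × ZMod 3 =>
      (⟨fun σ => h x.1.out σ - x.2 * a σ, hmem _ _⟩ : KumH hi a)) := by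
    rintro ⟨q, c⟩ ⟨q', c'⟩ hxy
    have h1 : ∀ σ, h q.out σ - c * a σ = h q'.out σ - c' * a σ := fun σ =>
      congrFun (Subtype.ext_iff.1 hxy) σ
    have h2 : q = q' := by
      rw [← Quotient.out_eq q, ← Quotient.out_eq q']
      exact Quotient.sound ⟨c - c', fun σ => by linear_combination h1 σ⟩
    subst h2
    obtain ⟨σ, hσ⟩ := hne
    have h3 : (c - c') * a σ = 0 := by linear_combination -(h1 σ)
    have h4 : c = c' := sub_eq_zero.1 ((mul_eq_zero.1 h3).resolve_right hσ)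
    rw [h4]
  have hfinS : Finite (KumH hi a) := hfin
  have hfinQ3 : Finite (Q × ZMod 3) := Finite.of_injective _ hinj
  have hfinQ : Finite Q := Finite.of_injective (fun q : Q => ((q, 0) : Q × ZMod 3))
    fun q q' h => (Prod.mk.inj h).1
  have hcard : Nat.card Q * 3 ≤ (KumH hi a).ncard := by
    have h1 := Nat.card_le_card_of_injective _ hinj
    rw [Nat.card_prod, Nat.card_zmod, Nat.card_coe_set_eq] at h1
    exact h1
  -- representatives
  have hrep : ∀ P : AG hi a, ∃ (q : Q) (P' : AG hi a) (c : ZMod 3),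
      P.1 = (q.out).1 + Pool.Agent.Y155.CT.dd hi P'.1 + tt QB c := by
    intro P
    obtain ⟨c, hc'⟩ : s.r P (Quotient.out (Quotient.mk s P)) :=
      Quotient.exact (Quotient.out_eq (Quotient.mk s P)).symm
    obtain ⟨P₀, hP₀⟩ : ∃ P₀ : AG hi a, P₀ = Quotient.out (Quotient.mk s P) := ⟨_, rfl⟩
    rw [← hP₀] at hc'
    refine ⟨Quotient.mk s P, ⟨R P - R P₀ + c.val • T3 hi, fun σ => ?_⟩, -c, ?_⟩
    · have h1 := ah_nT3 hi a σ c
      have h2 : ah hi a σ (R P - R P₀ + c.val • T3 hi) =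
          (ah hi a σ (R P) - R P) - (ah hi a σ (R P₀) - R P₀) +
          (ah hi a σ (c.val • T3 hi) - c.val • T3 hi) + (R P - R P₀ + c.val • T3 hi) := by
        rw [map_add, map_sub]
        abel
      rw [h2, h1, hh, hh, hc' σ, tt_add]
      abel
    · show P.1 = (Quotient.out (Quotient.mk s P)).1 +
        Pool.Agent.Y155.CT.dd hi (R P - R P₀ + c.val • T3 hi) + tt QB (-c)
      rw [← hP₀, map_add, map_sub, map_nsmul, dd_T3, nsmul_tt, mul_one, ZMod.natCast_zmod_val,
        hR, hR, ← tt_neg]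
      abel
  -- the reduction
  obtain ⟨g, hg1, hg2⟩ := quot_map (AG hi a)
  have hg3 : ∀ x : AG hi a, g ((3 : ℤ) • x) = 0 := by
    intro x
    rw [map_zsmul]
    funext i
    show (3 : ℤ) • g x i = 0
    rw [zsmul_eq_mul]
    have : (((3 : ℤ) : ZMod 3)) = 0 := by decide
    rw [this, zero_mul]
  have htt : ∀ c : ZMod 3, g ⟨tt QB c, tt_mem c⟩ = 0 := fun c =>
    hg2 _ 3 three_ne_zero (Subtype.ext (three_tt c))
  have hsurj : Function.Surjective (fun x : Q × Q =>
      g x.1.out + g ⟨Pool.Agent.Y155.CT.dd hi x.2.out.1, dd_mem x.2.out.2⟩) := by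
    intro y
    obtain ⟨P, rfl⟩ := hg1 y
    obtain ⟨q, P', c, h1⟩ := hrep P
    obtain ⟨q', P'', c', h2⟩ := hrep P'
    refine ⟨(q, q'), ?_⟩
    have h3 : P = q.out + ⟨Pool.Agent.Y155.CT.dd hi q'.out.1, dd_mem q'.out.2⟩ +
        (-((3 : ℤ) • ⟨im (isE QB) hi P''.1, im_mem P''.2⟩)) + ⟨tt QB c, tt_mem c⟩ := by
      apply Subtype.ext
      show P.1 = q.out.1 + Pool.Agent.Y155.CT.dd hi q'.out.1 +
        (-((3 : ℤ) • im (isE QB) hi P''.1)) + tt QB c
      have h4 : Pool.Agent.Y155.CT.dd hi P'.1 = Pool.Agent.Y155.CT.dd hi q'.out.1 +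
          (-((3 : ℤ) • im (isE QB) hi P''.1)) := by
        rw [h2, map_add, map_add, dd_tt, add_zero, dd_dd, map_nsmul]
        norm_cast
      rw [h1, h4]
      abel
    show g q.out + g ⟨Pool.Agent.Y155.CT.dd hi q'.out.1, dd_mem q'.out.2⟩ = g P
    rw [h3, map_add, map_add, map_add, map_neg, hg3, htt, neg_zero, add_zero, add_zero]
  have h1 := Nat.card_le_card_of_surjective _ hsurj
  rw [Nat.card_prod, Nat.card_fun, Nat.card_zmod, Nat.card_fin] at h1
  exact ⟨Nat.card Q, h1, hcard⟩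

lemma sel_co {h : GK i₀ → ZMod 3} (hh : h ∈ SelH hi a) : Co hi a (fun σ => tt QB (h σ)) := by
  obtain ⟨h1, h2, h3⟩ := hh
  refine ⟨h1.comp (fun c => tt QB c), fun σ τ => ?_, fun p _ ι => ?_⟩
  · show tt QB (h (σ * τ)) = tt QB (h σ) + ah hi a σ (tt QB (h τ))
    rw [h2, ah_tt, tt_add]
  · obtain ⟨R, hR⟩ := h3 p ι
    refine ⟨R, fun τ σ hc => ?_⟩
    rw [pm_tt]
    exact (hR τ σ hc).symm

lemma sel_add2 {h k : GK i₀ → ZMod 3} (hh : h ∈ SelH hi a) (hk : k ∈ SelH hi a) :
    (fun σ => h σ + k σ) ∈ SelH hi a := by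
  apply co_sel
  have h0 := (sel_co hh).sub (sel_co hh)
  have h1 := (sel_co hh).sub (h0.sub (sel_co hk))
  have e : (fun σ => tt QB (h σ + k σ)) = fun σ => tt QB (h σ) -
      (tt QB (h σ) - tt QB (h σ) - tt QB (k σ)) := by
    funext σ
    rw [tt_add]
    abel
  rw [e]
  exact h1

/-- the Selmer characters modulo the characters of the points -/
def sk (hi : i₀ ^ 2 + i₀ + 1 = 0) (a : GK i₀ → ZMod 3) : Setoid (SelH hi a) where
  r := fun h h' => Cb hi a (fun σ => tt QB (h.1 σ) - tt QB (h'.1 σ))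
  iseqv :=
    { refl := fun h => ⟨0, fun σ => by
        show tt QB (h.1 σ) - tt QB (h.1 σ) = _
        rw [sub_self, map_zero, sub_zero]⟩
      symm := fun {h h'} ⟨R, hR⟩ => ⟨-R, fun σ => by
        have h1 : tt QB (h.1 σ) - tt QB (h'.1 σ) = ah hi a σ R - R := hR σ
        have h2 : tt QB (h'.1 σ) - tt QB (h.1 σ) = -(tt QB (h.1 σ) - tt QB (h'.1 σ)) := by abel
        show tt QB (h'.1 σ) - tt QB (h.1 σ) = _
        rw [h2, h1, map_neg]
        abel⟩
      trans := fun {h h' h''} ⟨R, hR⟩ ⟨R', hR'⟩ => ⟨R + R', fun σ => by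
        have h1 : tt QB (h.1 σ) - tt QB (h'.1 σ) = ah hi a σ R - R := hR σ
        have h2 : tt QB (h'.1 σ) - tt QB (h''.1 σ) = ah hi a σ R' - R' := hR' σ
        have h3 : tt QB (h.1 σ) - tt QB (h''.1 σ) = (tt QB (h.1 σ) - tt QB (h'.1 σ)) +
          (tt QB (h'.1 σ) - tt QB (h''.1 σ)) := by abel
        show tt QB (h.1 σ) - tt QB (h''.1 σ) = _
        rw [h3, h1, h2, map_add]
        abel⟩ }

lemma card_sk (hfin : (SelH hi a).Finite) :
    Finite (Quotient (sk hi a)) ∧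
      Nat.card (Quotient (sk hi a)) * (KumH hi a).ncard ≤ (SelH hi a).ncard := by
  have hfinS : Finite (SelH hi a) := hfin
  have hfinQ : Finite (Quotient (sk hi a)) :=
    Finite.of_surjective _ (Quotient.mk_surjective (s := sk hi a))
  refine ⟨hfinQ, ?_⟩
  have hinj : Function.Injective (fun x : Quotient (sk hi a) × KumH hi a =>
      (⟨fun σ => x.1.out.1 σ + x.2.1 σ, sel_add2 x.1.out.2 x.2.2.1⟩ : SelH hi a)) := by
    rintro ⟨q, κ⟩ ⟨q', κ'⟩ hxy
    have h1 : ∀ σ, q.out.1 σ + κ.1 σ = q'.out.1 σ + κ'.1 σ := fun σ =>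
      congrFun (Subtype.ext_iff.1 hxy) σ
    have h2 : q = q' := by
      rw [← Quotient.out_eq q, ← Quotient.out_eq q']
      refine Quotient.sound ?_
      have h3 := cb_sub κ'.2.2 κ.2.2
      have e : (fun σ => tt QB (q.out.1 σ) - tt QB (q'.out.1 σ)) =
          fun σ => tt QB (κ'.1 σ) - tt QB (κ.1 σ) := by
        funext σ
        have h4 : tt QB (q.out.1 σ) + tt QB (κ.1 σ) = tt QB (q'.out.1 σ) + tt QB (κ'.1 σ) := by
          rw [← tt_add, ← tt_add, h1]
        rw [sub_eq_sub_iff_add_eq_add, h4, add_comm]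
      show Cb hi a (fun σ => tt QB (q.out.1 σ) - tt QB (q'.out.1 σ))
      rw [e]
      exact h3
    subst h2
    have h5 : κ = κ' := Subtype.ext (funext fun σ => add_left_cancel (h1 σ))
    rw [h5]
  have h6 := Nat.card_le_card_of_injective _ hinj
  rw [Nat.card_prod, Nat.card_coe_set_eq, Nat.card_coe_set_eq] at h6
  exact h6

/-- **the bound for the classes of order three** -/
theorem card_three' (ha : ∀ σ τ, a (σ * τ) = a σ + a τ) (hc : IsLocallyConstant a)
    (hfin : (SelH hi a).Finite) (X : Type) (F : X → GK i₀ → Pt QB)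
    (hF : ∀ x, Co hi a (F x)) (h3 : ∀ x, Cb hi a (fun σ => 3 • F x σ))
    (hinj : ∀ x y, Cb hi a (fun σ => F x σ - F y σ) → x = y) :
    Finite X ∧ Nat.card X ≤ Nat.card (Quotient (sk hi a)) * Nat.card (Quotient (sk hi a)) := by
  obtain ⟨hQf, -⟩ := card_sk (hi := hi) hfin
  rcases isEmpty_or_nonempty X with hX | hX
  · exact ⟨inferInstance, by rw [Nat.card_eq_zero.2 (Or.inl hX)]; exact Nat.zero_le _⟩
  have h1 := fun x => red ha hc (hF x) (h3 x)
  choose f' hf' hcb h hh hdd using h1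
  let q1 : X → Quotient (sk hi a) := fun x => Quotient.mk _ ⟨h x, hh x⟩
  let b : Quotient (sk hi a) → X := Function.invFun q1
  have hb : ∀ x, q1 (b (q1 x)) = q1 x := fun x => Function.invFun_eq ⟨x, rfl⟩
  have h2 : ∀ x, ∃ k : GK i₀ → ZMod 3, k ∈ SelH hi a ∧ ∃ R : Pt QB, ∀ σ,
      f' x σ - f' (b (q1 x)) σ + (ah hi a σ R - R) = tt QB (k σ) := by
    intro x
    obtain ⟨P, hP⟩ : Cb hi a (fun σ => tt QB (h x σ) - tt QB (h (b (q1 x)) σ)) :=
      Quotient.exact (hb x).symm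
    obtain ⟨R, hR⟩ := dd_surj hi (-P)
    have hco : Co hi a (fun σ => (f' x σ - f' (b (q1 x)) σ) - (ah hi a σ (-R) - (-R))) :=
      ((hf' x).sub (hf' _)).sub (co_cob ha hc (-R))
    have e : (fun σ => (f' x σ - f' (b (q1 x)) σ) - (ah hi a σ (-R) - (-R))) =
        fun σ => f' x σ - f' (b (q1 x)) σ + (ah hi a σ R - R) := by
      funext σ
      rw [map_neg]
      abel
    rw [e] at hco
    have h0 : ∀ σ, Pool.Agent.Y155.CT.dd hi
        (f' x σ - f' (b (q1 x)) σ + (ah hi a σ R - R)) = 0 := by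
      intro σ
      have h5 : tt QB (h x σ) - tt QB (h (b (q1 x)) σ) = ah hi a σ P - P := hP σ
      rw [map_add, map_sub, map_sub, hdd, hdd, ← ah_dd, hR, h5, map_neg]
      abel
    have hex : ∀ σ, ∃ c : ZMod 3,
        f' x σ - f' (b (q1 x)) σ + (ah hi a σ R - R) = tt QB c := fun σ => dd_ker hi (h0 σ)
    choose k hk using hex
    refine ⟨k, ?_, R, hk⟩
    rw [funext hk] at hco
    exact co_sel hco
  choose k hk R hR using h2
  have hinj' : Function.Injective (fun x : X =>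
      ((q1 x, Quotient.mk _ ⟨k x, hk x⟩) : Quotient (sk hi a) × Quotient (sk hi a))) := by
    intro x y hxy
    have e1 : q1 x = q1 y := (Prod.mk.inj hxy).1
    have hcc : Cb hi a (fun σ => tt QB (k x σ) - tt QB (k y σ)) :=
      Quotient.exact (Prod.mk.inj hxy).2
    apply hinj
    have h4 : Cb hi a (fun σ => f' x σ - f' y σ) := by
      have h5 := cb_add hcc
        (⟨R y - R x, fun σ => rfl⟩ : Cb hi a (fun σ => ah hi a σ (R y - R x) - (R y - R x)))
      have e2 : (fun σ => f' x σ - f' y σ) =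
          fun σ => (tt QB (k x σ) - tt QB (k y σ)) +
            (ah hi a σ (R y - R x) - (R y - R x)) := by
        funext σ
        have h6 := hR x σ
        have h7 := hR y σ
        rw [← e1] at h7
        rw [← h6, ← h7, map_sub]
        abel
      rw [e2]
      exact h5
    have h5 := cb_add (cb_sub (hcb x) (hcb y)) h4
    have e3 : (fun σ => F x σ - F y σ) =
        fun σ => (F x σ - f' x σ - (F y σ - f' y σ)) + (f' x σ - f' y σ) := by
      funext σ
      abel
    rw [e3]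
    exact h5
  refine ⟨Finite.of_injective _ hinj', ?_⟩
  have h6 := Nat.card_le_card_of_injective _ hinj'
  rw [Nat.card_prod] at h6
  exact h6

end Pool.Agent.Helper68.FZ
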