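import Pool.Agent.Helper68.FZ.Kum

/-!
# The `3`-torsion of the Tate-Shafarevich group over `K`, and the Tate module
-/

set_option autoImplicit false
set_option linter.unusedSectionVars false

open scoped Classical

namespace Pool.Agent.Helper68.FZ

open NumberField IsDedekindDomain WeierstrassCurve
open Pool.Agent.Y692.QS (Ei w nr toC)
open Pool.Agent.Y715.T.Gi Pool.Agent.Y715.T.Nr Pool.Agent.Y715.T.Df Pool.Agent.Y715.T.Ell
open Pool.Agent.Y703.CT
open Pool.Agent.Y696.CTK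
open Pool.Agent.TH841.SH.D (Gal Coch IsCoc IsCob LocTriv cob)
open Pool.Agent.Y155.CT (ah Co ah_apply a_mul a_cont)
open Pool.Agent.XL6 (SelH)

section tate

/-- the Tate module `T_3 A`: the sequences `x` with `x 0 = 0` and `3 x (n + 1) = x n` -/
def Tate (A : Type) [AddCommGroup A] : AddSubgroup (ℕ → A) where
  carrier := {x | x 0 = 0 ∧ ∀ n, (3 : ℕ) • x (n + 1) = x n}
  zero_mem' := ⟨rfl, fun n => smul_zero _⟩
  add_mem' := fun {x y} hx hy => ⟨by
    show x 0 + y 0 = 0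
    rw [hx.1, hy.1, add_zero], fun n => by
    show (3 : ℕ) • (x (n + 1) + y (n + 1)) = x n + y n
    rw [smul_add, hx.2, hy.2]⟩
  neg_mem' := fun {x} hx => ⟨by
    show -x 0 = 0
    rw [hx.1, neg_zero], fun n => by
    show (3 : ℕ) • (-x (n + 1)) = -x n
    rw [smul_neg, hx.2]⟩

variable {A : Type} [AddCommGroup A]

theorem tate_card {m : ℕ} (hf : Finite {x : A // (3 : ℕ) • x = 0})
    (hm : Nat.card {x : A // (3 : ℕ) • x = 0} ≤ m) :
    Finite (Tate A ⧸ (nsmulAddMonoidHom 3 : Tate A →+ Tate A).range) ∧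
      Nat.card (Tate A ⧸ (nsmulAddMonoidHom 3 : Tate A →+ Tate A).range) ≤ m := by
  have hinj : Function.Injective
      (fun q : Tate A ⧸ (nsmulAddMonoidHom 3 : Tate A →+ Tate A).range =>
        (⟨(Quotient.out q).1 1, by
          have h := (Quotient.out q).2.2 0
          rw [(Quotient.out q).2.1] at h
          exact h⟩ : {x : A // (3 : ℕ) • x = 0})) := by
    intro q q' h
    have h1 : (Quotient.out q).1 1 = (Quotient.out q').1 1 := Subtype.ext_iff.1 h
    have h2 : ((Quotient.out q : Tate A) : Tate A ⧸ (nsmulAddMonoidHom 3 : Tate A →+ Tate A).range) =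
        ((Quotient.out q' : Tate A) : Tate A ⧸ (nsmulAddMonoidHom 3 : Tate A →+ Tate A).range) := by
      rw [QuotientAddGroup.eq]
      obtain ⟨t, ht⟩ : ∃ t : Tate A, t = Quotient.out q := ⟨_, rfl⟩
      obtain ⟨t', ht'⟩ : ∃ t' : Tate A, t' = Quotient.out q' := ⟨_, rfl⟩
      rw [← ht, ← ht'] at h1 ⊢
      refine ⟨⟨fun n => t'.1 (n + 1) - t.1 (n + 1), ?_, fun n => ?_⟩, ?_⟩
      · show t'.1 (0 + 1) - t.1 (0 + 1) = 0
        rw [zero_add, h1, sub_self]
      · show (3 : ℕ) • (t'.1 (n + 1 + 1) - t.1 (n + 1 + 1)) = t'.1 (n + 1) - t.1 (n + 1)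
        rw [smul_sub, t'.2.2, t.2.2]
      · apply Subtype.ext
        funext n
        show (3 : ℕ) • (t'.1 (n + 1) - t.1 (n + 1)) = -t.1 n + t'.1 n
        rw [smul_sub, t'.2.2, t.2.2]
        abel
    have e1 : ((Quotient.out q : Tate A) : Tate A ⧸ (nsmulAddMonoidHom 3 : Tate A →+ Tate A).range) = q :=
      QuotientAddGroup.out_eq' q
    have e2 : ((Quotient.out q' : Tate A) : Tate A ⧸ (nsmulAddMonoidHom 3 : Tate A →+ Tate A).range) = q' :=
      QuotientAddGroup.out_eq' q'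
    rw [← e1, ← e2]
    exact h2
  exact ⟨Finite.of_injective _ hinj, (Nat.card_le_card_of_injective _ hinj).trans hm⟩

/-- no elements of order three: no elements of order a power of three -/
theorem no_pow (hf : Finite {x : A // (3 : ℕ) • x = 0})
    (hm : Nat.card {x : A // (3 : ℕ) • x = 0} ≤ 1) (n : ℕ) : ∀ x : A, (3 ^ n : ℕ) • x = 0 → x = 0 := by
  have h0 : ∀ x : A, (3 : ℕ) • x = 0 → x = 0 := by
    intro x hx
    have hs : Subsingleton {x : A // (3 : ℕ) • x = 0} := Finite.card_le_one_iff_subsingleton.1 hm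
    have h1 := Subsingleton.elim (⟨x, hx⟩ : {x : A // (3 : ℕ) • x = 0}) ⟨0, smul_zero _⟩
    exact Subtype.ext_iff.1 h1
  induction n with
  | zero =>
    intro x hx
    rw [pow_zero, one_smul] at hx
    exact hx
  | succ n ih =>
    intro x hx
    apply h0
    apply ih
    rw [smul_smul, ← pow_succ]
    exact hx

theorem tate_bot (hf : Finite {x : A // (3 : ℕ) • x = 0})
    (hm : Nat.card {x : A // (3 : ℕ) • x = 0} ≤ 1) : Tate A = ⊥ := by
  rw [eq_bot_iff]
  rintro x ⟨h0, h1⟩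
  rw [AddSubgroup.mem_bot]
  funext n
  show x n = 0
  induction n with
  | zero => exact h0
  | succ n ih =>
    refine no_pow hf hm 1 _ ?_
    rw [pow_one, h1, ih]

end tate

variable {K : Type} [Field K] [NumberField K] {j : Ei ≃+* 𝓞 K} {D : Ei}
  {e : AlgebraicClosure K ≃+* QB} {i₀ : QB} {hi : i₀ ^ 2 + i₀ + 1 = 0} {u : QB}
  {a : GK i₀ → ZMod 3}
  {Ψ : Pool.Agent.TH841.SH.D.Pt (ED (j D : K)) (AlgebraicClosure K) ≃+ Pt QB}
  {g : Pool.Agent.TH841.SH.D.Gal K ≃* GK i₀}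

theorem sha_three (hD : D ≠ 0) (hTr : TrfData K j D e i₀ hi u a Ψ g)
    (hfin : (SelH hi a).Finite) :
    Finite {x : Pool.Agent.TH841.NF.D.Sha (ED (j D : K)) // (3 : ℕ) • x = 0} ∧
      Nat.card {x : Pool.Agent.TH841.NF.D.Sha (ED (j D : K)) // (3 : ℕ) • x = 0} ≤
        Nat.card (Quotient (sk hi a)) * Nat.card (Quotient (sk hi a)) := by
  obtain ⟨hTw, he, hgc, hgsc, hge, hΨ, hact⟩ := id hTr
  have hu : u ^ 3 = e (algebraMap K (AlgebraicClosure K) (j D : K)) := by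
    rw [hTw.cube, he]
  have hu0 : u ≠ 0 := by
    rintro rfl
    exact ev_ne hi hD (by rw [← hTw.cube]; ring)
  have hrep : ∀ x : {x : Pool.Agent.TH841.NF.D.Sha (ED (j D : K)) // (3 : ℕ) • x = 0},
      ∃ f : Pool.Agent.TH841.NF.D.shaCoc (ED (j D : K)),
        (QuotientAddGroup.mk f : Pool.Agent.TH841.NF.D.shaCoc (ED (j D : K)) ⧸
        (Pool.Agent.TH841.SH.D.cob (ED (j D : K))).addSubgroupOf
          (Pool.Agent.TH841.NF.D.shaCoc (ED (j D : K)))) = x.1 := fun x =>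
    QuotientAddGroup.mk_surjective x.1
  choose f hf using hrep
  refine card_three' (hi := hi) (a_mul hD hTw) (a_cont hD hTw) hfin _
    (fun x σ => Ψ ((f x).1 (g.symm σ))) (fun x => ?_) (fun x => ?_) (fun x y h => ?_)
  · obtain ⟨⟨hc, hm⟩, -⟩ := (f x).2
    refine ⟨(hc.comp_continuous hgsc).comp _, fun σ τ => ?_, fun p _ ι => ?_⟩
    · show Ψ ((f x).1 (g.symm (σ * τ))) = Ψ ((f x).1 (g.symm σ)) + ah hi a σ (Ψ ((f x).1 (g.symm τ)))
      rw [map_mul, hm, map_add, hact, g.apply_symm_apply]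
      rfl
    · exact Pool.Agent.Y891.CTK.local_part hi hu0 hu hTw.act hge hΨ (f x).2 p ι
  · have hx := x.2
    have hx1 : (QuotientAddGroup.mk ((3 : ℕ) • f x) :
      Pool.Agent.TH841.NF.D.shaCoc (ED (j D : K)) ⧸
        (Pool.Agent.TH841.SH.D.cob (ED (j D : K))).addSubgroupOf
          (Pool.Agent.TH841.NF.D.shaCoc (ED (j D : K)))) = 0 := by
      refine Eq.trans ?_ hx
      rw [← hf x]
      rfl
    rw [QuotientAddGroup.eq_zero_iff, AddSubgroup.mem_addSubgroupOf] at hx1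
    obtain ⟨P, hP⟩ := hx1
    have hP' : ∀ σ, (3 : ℕ) • (f x).1 σ =
      Pool.Agent.TH841.SH.D.act (ED (j D : K)) σ.toAlgHom P - P := hP
    refine ⟨Ψ P, fun σ => ?_⟩
    show (3 : ℕ) • Ψ ((f x).1 (g.symm σ)) = _
    rw [← map_nsmul, hP', map_sub, hact, g.apply_symm_apply]
    rfl
  · obtain ⟨R, hR⟩ := h
    apply Subtype.ext
    rw [← hf x, ← hf y]
    have hcob : IsCob (ED (j D : K)) (-(f x).1 + (f y).1) := by
      refine ⟨-Ψ.symm R, fun σ => ?_⟩
      apply Ψ.injective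
      have h5 : Ψ ((f x).1 (g.symm (g σ))) - Ψ ((f y).1 (g.symm (g σ))) =
        ah hi a (g σ) R - R := hR (g σ)
      rw [g.symm_apply_apply] at h5
      show Ψ (-(f x).1 σ + (f y).1 σ) = _
      rw [map_add, map_neg, map_sub, map_neg, map_neg, map_neg, hact, AddEquiv.apply_symm_apply]
      have h6 : -Ψ ((f x).1 σ) + Ψ ((f y).1 σ) = -(ah hi a (g σ) R - R) := by
        rw [← h5]
        abel
      rw [h6, neg_sub]
      show R - ah hi a (g σ) R = -ah hi a (g σ) R - -R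
      abel
    refine QuotientAddGroup.eq.2 ?_
    rw [AddSubgroup.mem_addSubgroupOf]
    exact hcob

/-- **the rank and the `3`-torsion of the Tate-Shafarevich group together** -/
theorem sha_rank (hD : D ≠ 0) (hTr : TrfData K j D e i₀ hi u a Ψ g) (hne : ∃ σ, a σ ≠ 0)
    (hfin : (SelH hi a).Finite) :
    ∃ m q : ℕ, 3 ^ Module.finrank ℤ (ED (j D : K)).toAffine.Point ≤ m * m ∧
      (Finite {x : Pool.Agent.TH841.NF.D.Sha (ED (j D : K)) // (3 : ℕ) • x = 0} ∧
      Nat.card {x : Pool.Agent.TH841.NF.D.Sha (ED (j D : K)) // (3 : ℕ) • x = 0} ≤ q * q) ∧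
      m * q * 3 ≤ (SelH hi a).ncard := by
  have hTw := hTr.1
  obtain ⟨m, h1, h2⟩ := rank_kum (hi := hi) (a_mul hD hTw) (a_cont hD hTw) hne
    (hfin.subset fun h hh => hh.1)
  obtain ⟨-, h3⟩ := card_sk (hi := hi) hfin
  have h4 := Pool.Agent.XL6.rk_le hD hTr
  refine ⟨m, Nat.card (Quotient (sk hi a)), (Nat.pow_le_pow_right (by norm_num) h4).trans h1,
    sha_three hD hTr hfin, ?_⟩
  calc m * Nat.card (Quotient (sk hi a)) * 3 = Nat.card (Quotient (sk hi a)) * (m * 3) := by ring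
    _ ≤ Nat.card (Quotient (sk hi a)) * (KumH hi a).ncard := Nat.mul_le_mul_left _ h2
    _ ≤ (SelH hi a).ncard := h3

end Pool.Agent.Helper68.FZ
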