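import Pool.Agent.Helper68.C10.FinPad
import Pool.Agent.Helper68.FZ.ShK

/-!
# The `3`-torsion of the Tate-Shafarevich groups of all cubic twists: one curve, and the proportions
-/

set_option autoImplicit false
set_option linter.unusedSectionVars false

open scoped Classical

namespace Pool.Agent.Helper68.FZ

open NumberField IsDedekindDomain WeierstrassCurve Filter Finset
open Pool.Agent.Y692.QS (Ei w nr)
open Pool.Agent.Y703.CT
open Pool.Agent.Y696.CTK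
open Pool.Agent.Y715.T.Gi Pool.Agent.Y715.T.Nr Pool.Agent.Y715.T.Df Pool.Agent.Y715.T.Ell
open Pool.Agent.Y715.T.RecG (Pq)
open Pool.Agent.Y703.XL (cr)
open Pool.Agent.Helper68.C8.AllCf (el PU cf_iff count_K el_surj el_cf)
open Pool.Agent.Helper68.C10.LR (selH_nG nG_pos nG el_ne nr_fin low_t law_K)
open Pool.Agent.XL6 (SelH SelK selK_card)

variable (K : Type) [Field K] [NumberField K] [IsCyclotomicExtension {3} ℚ K]

/-- **one curve** -/
theorem one_sha (D : 𝓞 K) (hcf : ∀ x : 𝓞 K, x ^ 3 ∣ D → IsUnit x) (h1 : D ≠ 1) (h2 : D ≠ -1)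
 :
    ∃ m q : ℕ, 3 ^ Module.finrank ℤ (ED (D : K)).toAffine.Point ≤ m * m ∧
      (Finite {x : Pool.Agent.TH841.NF.D.Sha (ED (D : K)) // (3 : ℕ) • x = 0} ∧
      Nat.card {x : Pool.Agent.TH841.NF.D.Sha (ED (D : K)) // (3 : ℕ) • x = 0} ≤ q * q) ∧
      m * q * 3 ≤ (SelK (D : K)).ncard := by
  obtain ⟨⟨j, hj⟩, hdisc⟩ := Pool.Agent.Y455.CTK.jex K
  obtain ⟨z, rfl⟩ := j.surjective D
  obtain ⟨s, m, κ, T, S, ha, hS, hT, hd, rfl⟩ := el_surj ((cf_iff j z).1 hcf)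
  have hU : ∀ π ∈ S ∪ T, Pq π := fun π hπ => by
    rw [Finset.mem_union] at hπ
    exact hπ.elim (hS π) (hT π)
  have hne : ¬ (m = 0 ∧ κ = 0 ∧ S ∪ T = ∅) := by
    rintro ⟨rfl, rfl, h3⟩
    have e : el s 0 0 T (S ∪ T) = if s then 1 else -1 := by
      unfold el PU
      rw [h3, Finset.prod_empty, pow_zero, ZMod.val_zero, pow_zero, mul_one, mul_one, mul_one]
    rw [e] at h1 h2
    cases s
    · exact h2 (by simp)
    · exact h1 (by simp)
  have hm : m ≤ 2 := by omega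
  have P := parts
  have h0 : el s m κ T (S ∪ T) ≠ 0 := el_ne hU s (by omega) κ
  obtain ⟨e, i₀, hi, u, a, Ψ, g, hdata⟩ := P.trf K j _ h0
  obtain ⟨h3, h4⟩ := selH_nG hU hm κ hne s hi hdata.1
  have h5 := selK_card h0 hdata
  have hfin : (SelH hi a).Finite :=
    Set.finite_of_ncard_ne_zero (by rw [h3]; exact nG_pos m κ T _)
  rw [h5]
  exact sha_rank h0 hdata h4 hfin

/-- the bounds for one curve with `#Sel = 3 ^ (r + 1)` -/
theorem bounds (D : 𝓞 K) (hcf : ∀ x : 𝓞 K, x ^ 3 ∣ D → IsUnit x) (h1 : D ≠ 1) (h2 : D ≠ -1)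
    (r : ℕ) (hr : (SelK (D : K)).ncard ≤ 3 ^ (r + 1)) :
    Finite {x : Pool.Agent.TH841.NF.D.Sha (ED (D : K)) // (3 : ℕ) • x = 0} ∧
      3 ^ Module.finrank ℤ (ED (D : K)).toAffine.Point *
        Nat.card {x : Pool.Agent.TH841.NF.D.Sha (ED (D : K)) // (3 : ℕ) • x = 0} ≤ 9 ^ r ∧
      ((r = 0 ∨ (r = 1 ∧ Module.finrank ℤ (ED (D : K)).toAffine.Point ≠ 0)) →
        Nat.card {x : Pool.Agent.TH841.NF.D.Sha (ED (D : K)) // (3 : ℕ) • x = 0} ≤ 1) := by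
  obtain ⟨m, q, h3, ⟨h4, h5⟩, h6⟩ := one_sha K D hcf h1 h2
  have h7 : m * q * 3 ≤ 3 ^ (r + 1) := h6.trans hr
  rw [pow_succ] at h7
  have h8 : m * q ≤ 3 ^ r := by omega
  have hm : 1 ≤ m := by
    rcases Nat.eq_zero_or_pos m with h | h
    · rw [h, mul_zero] at h3
      have := Nat.pos_of_ne_zero (pow_ne_zero (Module.finrank ℤ (ED (D : K)).toAffine.Point)
        (show (3 : ℕ) ≠ 0 by norm_num))
      omega
    · exact h
  refine ⟨h4, ?_, ?_⟩
  · calc _ ≤ (m * m) * (q * q) := Nat.mul_le_mul h3 h5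
      _ = (m * q) * (m * q) := by ring
      _ ≤ 3 ^ r * 3 ^ r := Nat.mul_le_mul h8 h8
      _ = 9 ^ r := by rw [← mul_pow]; norm_num
  · intro h
    have hq : q ≤ 1 := by
      rcases h with rfl | ⟨rfl, hrk⟩
      · rw [pow_zero] at h8
        have h9 : 1 * q ≤ m * q := Nat.mul_le_mul_right q hm
        omega
      · have h9 : 3 ^ 1 ≤ m * m := (Nat.pow_le_pow_right (by norm_num)
          (Nat.one_le_iff_ne_zero.2 hrk)).trans h3
        have h10 : 2 ≤ m := by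
          by_contra hlt
          have h11 : m = 1 := by omega
          rw [h11] at h9
          norm_num at h9
        have h12 : 2 * q ≤ m * q := Nat.mul_le_mul_right q h10
        rw [pow_one] at h8
        omega
    calc _ ≤ q * q := h5
      _ ≤ 1 * 1 := Nat.mul_le_mul hq hq
      _ = 1 := one_mul 1

/-- the sets with given order of the Selmer group are disjoint -/
theorem sum_le {α : Type} (s : Set α) (hs : s.Finite) (f : α → ℕ) (m : ℕ) :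
    ∑ i ∈ range m, {D | D ∈ s ∧ f D = 3 ^ (i + 1)}.ncard =
      {D | D ∈ s ∧ ∃ i < m, f D = 3 ^ (i + 1)}.ncard := by
  induction m with
  | zero =>
    rw [Finset.range_zero, Finset.sum_empty]
    symm
    rw [Set.ncard_eq_zero (hs.subset fun D h => h.1)]
    ext D
    simp
  | succ m ih =>
    rw [Finset.sum_range_succ, ih, ← Set.ncard_union_eq ?_ (hs.subset fun D h => h.1)
      (hs.subset fun D h => h.1)]
    · congr 1
      ext D
      constructor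
      · rintro (⟨h1, i, hi, h2⟩ | ⟨h1, h2⟩)
        · exact ⟨h1, i, by omega, h2⟩
        · exact ⟨h1, m, by omega, h2⟩
      · rintro ⟨h1, i, hi, h2⟩
        rcases Nat.lt_succ_iff_lt_or_eq.1 hi with h | h
        · exact Or.inl ⟨h1, i, h, h2⟩
        · exact Or.inr ⟨h1, h ▸ h2⟩
    · rw [Set.disjoint_left]
      rintro D ⟨-, i, hi, h1⟩ ⟨-, h2⟩
      rw [h1] at h2
      have h3 : i + 1 = m + 1 := Nat.pow_right_injective (le_refl 2 |>.trans (by norm_num)) h2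
      omega

/-- a property which holds if the order of the Selmer group is at most `3 ^ (r + 1)` -/
theorem share_r (r : ℕ) (Q : 𝓞 K → Prop)
    (hQ : ∀ D : 𝓞 K, (∀ x : 𝓞 K, x ^ 3 ∣ D → IsUnit x) → D ≠ 1 → D ≠ -1 →
      (∃ i < r + 1, (SelK (D : K)).ncard = 3 ^ (i + 1)) → Q D)
    {c : ℝ} (hc : c < ∑ i ∈ range (r + 1), cr i) :
    ∀ᶠ X : ℕ in atTop,
      c < ({D : 𝓞 K | Algebra.norm ℤ D ≤ X ∧ (∀ x : 𝓞 K, x ^ 3 ∣ D → IsUnit x) ∧ Q D}.ncard : ℝ) /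
        ({D : 𝓞 K | Algebra.norm ℤ D ≤ X ∧ ∀ x : 𝓞 K, x ^ 3 ∣ D → IsUnit x}.ncard : ℝ) := by
  obtain ⟨⟨j, hj⟩, hdisc⟩ := Pool.Agent.Y455.CTK.jex K
  let t : ℕ → ℕ := fun X =>
    {D : 𝓞 K | Algebra.norm ℤ D ≤ X ∧ ∀ x : 𝓞 K, x ^ 3 ∣ D → IsUnit x}.ncard
  let g : ℕ → ℕ := fun X =>
    {D : 𝓞 K | Algebra.norm ℤ D ≤ X ∧ (∀ x : 𝓞 K, x ^ 3 ∣ D → IsUnit x) ∧ Q D}.ncard
  let n : ℕ → ℕ → ℕ := fun r X =>
    {D : 𝓞 K | Algebra.norm ℤ D ≤ X ∧ (∀ x : 𝓞 K, x ^ 3 ∣ D → IsUnit x) ∧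
      (SelK (D : K)).ncard = 3 ^ (r + 1)}.ncard
  have hfinE : ∀ X : ℕ, {z : Ei | nr z ≤ X}.Finite := nr_fin
  have hfin : ∀ (X : ℕ) (P : 𝓞 K → Prop),
      {D : 𝓞 K | Algebra.norm ℤ D ≤ X ∧ (∀ x : 𝓞 K, x ^ 3 ∣ D → IsUnit x) ∧ P D}.Finite := by
    intro X P
    refine ((hfinE X).image j).subset ?_
    rintro D ⟨h1, -⟩
    obtain ⟨z, rfl⟩ := j.surjective D
    refine ⟨z, ?_, rfl⟩
    show Pool.Agent.Y692.QS.nr z ≤ X
    rw [← hj]
    exact h1
  have hle : ∀ X, ∑ i ∈ range (r + 1), n i X ≤ g X + 2 := by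
    intro X
    have h0 := sum_le {D : 𝓞 K | Algebra.norm ℤ D ≤ X ∧ (∀ x : 𝓞 K, x ^ 3 ∣ D → IsUnit x) ∧ True}
      (hfin X _) (fun D : 𝓞 K => (SelK (D : K)).ncard) (r + 1)
    have e1 : ∀ i, {D : 𝓞 K | D ∈ {D : 𝓞 K | Algebra.norm ℤ D ≤ X ∧
        (∀ x : 𝓞 K, x ^ 3 ∣ D → IsUnit x) ∧ True} ∧ (SelK (D : K)).ncard = 3 ^ (i + 1)}.ncard =
        n i X := by
      intro i
      show _ = {D : 𝓞 K | Algebra.norm ℤ D ≤ X ∧ (∀ x : 𝓞 K, x ^ 3 ∣ D → IsUnit x) ∧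
        (SelK (D : K)).ncard = 3 ^ (i + 1)}.ncard
      congr 1
      ext D
      constructor
      · rintro ⟨⟨a1, a2, -⟩, a3⟩
        exact ⟨a1, a2, a3⟩
      · rintro ⟨a1, a2, a3⟩
        exact ⟨⟨a1, a2, trivial⟩, a3⟩
    rw [← Finset.sum_congr rfl fun i _ => e1 i]
    refine (le_of_eq h0).trans ?_
    have h2 : {D : 𝓞 K | D ∈ {D : 𝓞 K | Algebra.norm ℤ D ≤ X ∧
        (∀ x : 𝓞 K, x ^ 3 ∣ D → IsUnit x) ∧ True} ∧
        ∃ i < r + 1, (SelK (D : K)).ncard = 3 ^ (i + 1)} ⊆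
        {D : 𝓞 K | Algebra.norm ℤ D ≤ X ∧ (∀ x : 𝓞 K, x ^ 3 ∣ D → IsUnit x) ∧ Q D} ∪
          {1, -1} := by
      rintro D ⟨⟨a1, a2, -⟩, a3⟩
      by_cases h1 : D = 1 ∨ D = -1
      · right
        exact h1
      · push Not at h1
        left
        exact ⟨a1, a2, hQ D a2 h1.1 h1.2 a3⟩
    refine (Set.ncard_le_ncard h2 ((hfin X _).union (Set.toFinite _))).trans ?_
    refine (Set.ncard_union_le _ _).trans ?_
    refine Nat.add_le_add_left ?_ _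
    exact (Set.ncard_insert_le _ _).trans (by rw [Set.ncard_singleton])
  have hl : Tendsto (fun X : ℕ => ∑ i ∈ range (r + 1), (n i X : ℝ) / (t X : ℝ)) atTop
      (nhds (∑ i ∈ range (r + 1), cr i)) := tendsto_finsetSum _ fun i _ => law_K K i
  obtain ⟨ε, hε, hcε⟩ : ∃ ε : ℝ, 0 < ε ∧ c + ε < ∑ i ∈ range (r + 1), cr i :=
    ⟨(∑ i ∈ range (r + 1), cr i - c) / 2, by linarith, by linarith⟩
  have h3 := hl.eventually (lt_mem_nhds hcε)
  -- the number of all of them tends to infinity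
  have htop : Tendsto (fun X : ℕ => (t X : ℝ)) atTop atTop := by
    obtain ⟨c', X₁, hc', hlow⟩ := low_t
    have h6 : Tendsto (fun X : ℕ => c' * (X : ℝ)) atTop atTop :=
      tendsto_natCast_atTop_atTop.const_mul_atTop hc'
    refine tendsto_atTop_mono' _ ?_ h6
    filter_upwards [eventually_ge_atTop X₁] with X hX
    have h7 := hlow X hX
    have h8 := count_K j hj X (fun _ => True)
    simp only [and_true] at h8
    show c' * (X : ℝ) ≤ (t X : ℝ)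
    rw [show t X = {z : Ei | nr z ≤ X ∧ CF z}.ncard from h8]
    exact h7
  have h4 := htop.eventually (eventually_ge_atTop (2 / ε))
  have h5 := htop.eventually (eventually_gt_atTop 0)
  filter_upwards [h3, h4, h5] with X a1 a2 a3
  rw [← Finset.sum_div, lt_div_iff₀ a3] at a1
  have a4 : ∑ i ∈ range (r + 1), (n i X : ℝ) ≤ g X + 2 := by exact_mod_cast hle X
  have a5 : 2 ≤ ε * t X := by
    rw [div_le_iff₀ hε] at a2
    linarith
  show c < (g X : ℝ) / (t X : ℝ)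
  rw [lt_div_iff₀ a3]
  nlinarith

end Pool.Agent.Helper68.FZ
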