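import Pool.Graph.R_seed8.Y696.XL.Asm

/-!
# Cocycles of order three and Selmer characters
-/

set_option autoImplicit false
set_option linter.unusedSectionVars false

open scoped Classical

namespace Pool.Agent.Helper68.FZ

open NumberField IsDedekindDomain WeierstrassCurve
open Pool.Agent.Y692.QS (Ei w nr toC)
open Pool.Agent.Y715.T.Gi Pool.Agent.Y715.T.Nr Pool.Agent.Y715.T.Df Pool.Agent.Y715.T.Ell
open Pool.Agent.Y703.CT
open Pool.Agent.Y155.CT (ah ah_tt ah_dd ah_im ah_nT3 Co co_cob dd_ker dd_surj dd_T3 T3 dd_dd)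
open Pool.Agent.XL6 (SelH)

variable {i₀ : QB} {hi : i₀ ^ 2 + i₀ + 1 = 0} {a : GK i₀ → ZMod 3}

lemma co_sel {h : GK i₀ → ZMod 3} (hf : Co hi a (fun σ => tt QB (h σ))) : h ∈ SelH hi a := by
  refine ⟨?_, fun σ τ => ?_, fun p _ ι => ?_⟩
  · have e : h = (fun P : Pt QB =>
        if hx : ∃ c : ZMod 3, P = tt QB c then hx.choose else 0) ∘ (fun σ => tt QB (h σ)) := by
      ext1 σ
      show h σ = if hx : ∃ c : ZMod 3, tt QB (h σ) = tt QB c then hx.choose else 0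
      have hx : ∃ c : ZMod 3, tt QB (h σ) = tt QB c := ⟨h σ, rfl⟩
      rw [dif_pos hx]
      exact tt_inj hx.choose_spec
    rw [e]
    exact hf.lc.comp _
  · apply tt_inj (L := QB)
    have h1 : tt QB (h (σ * τ)) = tt QB (h σ) + ah hi a σ (tt QB (h τ)) := hf.co σ τ
    rw [h1, ah_tt, tt_add]
  · obtain ⟨R, hR⟩ := hf.lo p ι
    refine ⟨R, fun τ σ hc => ?_⟩
    have h1 := hR τ σ hc
    rw [pm_tt] at h1
    exact h1.symm

/-- coboundaries -/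
def Cb (hi : i₀ ^ 2 + i₀ + 1 = 0) (a : GK i₀ → ZMod 3) (f : GK i₀ → Pt QB) : Prop :=
  ∃ P, ∀ σ, f σ = ah hi a σ P - P

lemma cb_sub {f g : GK i₀ → Pt QB} (hf : Cb hi a f) (hg : Cb hi a g) :
    Cb hi a (fun σ => f σ - g σ) := by
  obtain ⟨P, hP⟩ := hf
  obtain ⟨Q, hQ⟩ := hg
  refine ⟨P - Q, fun σ => ?_⟩
  show f σ - g σ = _
  rw [hP, hQ, map_sub]
  abel

lemma cb_add {f g : GK i₀ → Pt QB} (hf : Cb hi a f) (hg : Cb hi a g) :
    Cb hi a (fun σ => f σ + g σ) := by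
  obtain ⟨P, hP⟩ := hf
  obtain ⟨Q, hQ⟩ := hg
  refine ⟨P + Q, fun σ => ?_⟩
  show f σ + g σ = _
  rw [hP, hQ, map_add]
  abel

lemma cb_tt (c : ZMod 3) : Cb hi a (fun σ => tt QB (c * a σ)) := by
  refine ⟨-(c.val • T3 hi), fun σ => ?_⟩
  have h1 := ah_nT3 hi a σ c
  rw [map_neg]
  have h2 : tt QB (c * a σ) = -(ah hi a σ (c.val • T3 hi) - c.val • T3 hi) := by
    rw [h1, neg_neg]
  show tt QB (c * a σ) = _
  rw [h2]
  abel

/-- normalisation of a cocycle of order three -/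
lemma red (ha : ∀ σ τ, a (σ * τ) = a σ + a τ) (hc : IsLocallyConstant a)
    {f : GK i₀ → Pt QB} (hf : Co hi a f) (h3 : Cb hi a (fun σ => 3 • f σ)) :
    ∃ f' : GK i₀ → Pt QB, Co hi a f' ∧ Cb hi a (fun σ => f σ - f' σ) ∧
      ∃ h ∈ SelH hi a, ∀ σ, Pool.Agent.Y155.CT.dd hi (f' σ) = tt QB (h σ) := by
  obtain ⟨P, hP⟩ := h3
  obtain ⟨R₁, hR₁⟩ := dd_surj hi (-im (isE QB) hi P)
  obtain ⟨R, hR⟩ := dd_surj hi R₁
  have hf' : Co hi a (fun σ => f σ - (ah hi a σ R - R)) := hf.sub (co_cob ha hc R)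
  have h0 : ∀ σ, Pool.Agent.Y155.CT.dd hi (Pool.Agent.Y155.CT.dd hi (f σ - (ah hi a σ R - R))) = 0 := by
    intro σ
    have h1 : Pool.Agent.Y155.CT.dd hi (Pool.Agent.Y155.CT.dd hi (f σ)) =
        -(ah hi a σ (im (isE QB) hi P) - im (isE QB) hi P) := by
      have h2 : (3 : ℕ) • f σ = ah hi a σ P - P := hP σ
      rw [dd_dd, h2, map_sub, ah_im]
    rw [map_sub, map_sub, h1, map_sub, map_sub, ← ah_dd, ← ah_dd, hR, hR₁, map_neg]
    abel
  have hex : ∀ σ, ∃ c : ZMod 3,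
      Pool.Agent.Y155.CT.dd hi (f σ - (ah hi a σ R - R)) = tt QB c := fun σ => dd_ker hi (h0 σ)
  choose h hh using hex
  refine ⟨_, hf', ⟨R, fun σ => by abel⟩, h, ?_, hh⟩
  have h4 := hf'.dd
  have h5 : (fun σ => Pool.Agent.Y155.CT.dd hi (f σ - (ah hi a σ R - R))) =
      fun σ => tt QB (h σ) := funext hh
  rw [h5] at h4
  exact co_sel h4

end Pool.Agent.Helper68.FZ
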